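import Pool.Agent.H651R2.SingGraph

set_option autoImplicit false

/-!
# Almost disjoint set mappings without large free sets at successors of singular cardinals

Let `lam` be a singular strong limit cardinal with `2 ^ lam = lam⁺`.  There is a set mapping `f` on
`lam⁺` with `f α ⊆ α`, any two of whose values have fewer than `lam` common elements, such that each
set of size `lam⁺` meets `f α` for all but at most `lam` many `α`.  In particular `f` has no free
set of size `lam⁺`.
-/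

namespace Pool.Agent.Results.MP_711cdf_lc.AllSingulars

open Cardinal Set Pool.Agent.H651R2

universe u

/-- The well-ordered set of the ordinals below `lam⁺`. -/
abbrev Below (lam : Cardinal.{u}) : Type u := (Order.succ lam).ord.ToType

/-- An admissible set mapping on `lam⁺`: `α ∉ f α`, `|f α| ≤ lam`, and `|f α ∩ f β| < lam` for
`α ≠ β`. -/
structure Admissible (lam : Cardinal.{u}) (f : Below lam → Set (Below lam)) : Prop where
  notMem : ∀ α, α ∉ f α
  card_le : ∀ α, #(f α) ≤ lam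
  card_inter : ∀ α β, α ≠ β → #(f α ∩ f β : Set (Below lam)) < lam

/-- `Y` is free for `f`: `β ∉ f α` for all distinct `α, β ∈ Y`. -/
def IsFree {lam : Cardinal.{u}} (f : Below lam → Set (Below lam)) (Y : Set (Below lam)) : Prop :=
  ∀ α ∈ Y, ∀ β ∈ Y, α ≠ β → β ∉ f α

theorem general (lam : Cardinal.{u}) (hlam : lam.IsSingular)
    (hstr : ∀ c < lam, (2 : Cardinal.{u}) ^ c < lam)
    (h2 : (2 : Cardinal.{u}) ^ lam = Order.succ lam) :
    ∃ f : Below lam → Set (Below lam), Admissible lam f ∧ (∀ α, f α ⊆ Iio α) ∧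
      (∀ A : Set (Below lam), #A = Order.succ lam → #{α | Disjoint A (f α)} ≤ lam) ∧
      (∀ A B : Set (Below lam), #A = Order.succ lam → #B = Order.succ lam →
        #{β | β ∈ B ∧ ∃ α ∈ A, α ≠ β ∧ α ∈ f β} = Order.succ lam) ∧
      ∀ Y : Set (Below lam), IsFree f Y → #Y ≤ lam := by
  have hinf : ℵ₀ ≤ lam := hlam.aleph0_le
  have hK : #(Below lam) = Order.succ lam := mk_ord_toType _
  have hI : ∀ a : Below lam, #(Iio a) ≤ lam := by
    intro a
    have h := mk_Iio_lt a (by rw [hK]; simp [Below])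
    rw [hK] at h
    exact Order.lt_succ_iff.1 h
  obtain ⟨N, hN1, hN2, hN3⟩ := exists_family hlam (fun c hc => (hstr c hc).le) h2 hK hI
  have hmiss : ∀ A : Set (Below lam), #A = Order.succ lam → #{α | Disjoint A (N α)} ≤ lam := by
    intro H hH
    have hunb : ∀ γ, ∃ α ∈ H, γ < α := by
      intro γ
      by_contra hcon
      push Not at hcon
      have h1 : #H ≤ lam :=
        small_mono (t := Iic γ) (fun x hx => hcon x hx) (small_Iic hinf (hI γ))
      rw [hH] at h1
      exact absurd h1 (not_le.2 (Order.lt_succ _))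
    obtain ⟨b, hb⟩ := hN3 H hunb
    refine small_mono (t := Iic b) ?_ (small_Iic hinf (hI b))
    intro α hα
    by_contra hbα
    obtain ⟨x, hx1, hx2⟩ := hb α (not_le.1 hbα)
    exact (Set.disjoint_left.1 hα) hx2 hx1
  have hhit : ∀ A B : Set (Below lam), #A = Order.succ lam → #B = Order.succ lam →
      #{β | β ∈ B ∧ ∃ α ∈ A, α ≠ β ∧ α ∈ N β} = Order.succ lam := by
    intro A B hA hB
    refine le_antisymm ((mk_set_le _).trans_eq hK) (Order.succ_le_of_lt (not_le.1 fun hcon => ?_))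
    have h1 : #B ≤ lam := by
      refine small_mono (t := {β | β ∈ B ∧ ∃ α ∈ A, α ≠ β ∧ α ∈ N β} ∪ {β | Disjoint A (N β)}) ?_
        (small_union hinf hcon (hmiss A hA))
      intro β hβ
      by_cases hd : Disjoint A (N β)
      · exact Or.inr hd
      · rw [Set.not_disjoint_iff] at hd
        obtain ⟨x, hx1, hx2⟩ := hd
        exact Or.inl ⟨hβ, x, hx1, (hN1 β hx2).ne, hx2⟩
    rw [hB] at h1
    exact absurd h1 (not_le.2 (Order.lt_succ _))
  refine ⟨N, ⟨fun α h => lt_irrefl α (mem_Iio.1 (hN1 α h)), fun α => small_mono (hN1 α) (hI α), hN2⟩, hN1,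
    hmiss, hhit, fun Y hY => ?_⟩
  by_contra hcon
  have hY2 : #Y = Order.succ lam :=
    le_antisymm ((mk_set_le _).trans_eq hK) (Order.succ_le_of_lt (not_le.1 hcon))
  have h1 := hhit Y Y hY2 hY2
  have h3 : {β | β ∈ Y ∧ ∃ α ∈ Y, α ≠ β ∧ α ∈ N β} = ∅ := by
    rw [Set.eq_empty_iff_forall_notMem]
    rintro β ⟨hβ, α, hα, hne, hmem⟩
    exact hY β hβ α hα hne.symm hmem
  rw [h3, mk_emptyCollection] at h1
  have h4 : (0 : Cardinal.{u}) < Order.succ lam := bot_lt_iff_ne_bot.2 (by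
    intro h0
    have := (Order.lt_succ lam).trans_eq h0
    exact absurd this (not_lt.2 bot_le))
  exact absurd h1 h4.ne

/-- **Theorem.** (1) Let `lam` be a singular strong limit cardinal with `2 ^ lam = lam⁺`. There is an
admissible set mapping `f` on `lam⁺`, even with `f α ⊆ α` for all `α`, such that each set of size
`lam⁺` is disjoint from `f α` for at most `lam` many `α`; so if `A`, `B` have size `lam⁺` then `lam⁺`
many `β ∈ B` have an element of `A` in `f β`, and all free sets have size at most `lam`.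

(2) If `2 ^ ℵₙ < ℵ_ω` for all `n` and `2 ^ ℵ_ω = ℵ_{ω+1}`, in particular under GCH, there is a
set mapping `f` on `ω_{ω+1}` with `α ∉ f α`, `|f α| ≤ ℵ_ω`, `|f α ∩ f β| < ℵ_ω` for `α ≠ β`, all of
whose free sets have size at most `ℵ_ω`. -/
theorem result :
    (∀ lam : Cardinal.{u}, lam.IsSingular → (∀ c < lam, (2 : Cardinal.{u}) ^ c < lam) →
      (2 : Cardinal.{u}) ^ lam = Order.succ lam →
      ∃ f : Below lam → Set (Below lam), Admissible lam f ∧ (∀ α, f α ⊆ Iio α) ∧
        (∀ A : Set (Below lam), #A = Order.succ lam → #{α | Disjoint A (f α)} ≤ lam) ∧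
        (∀ A B : Set (Below lam), #A = Order.succ lam → #B = Order.succ lam →
          #{β | β ∈ B ∧ ∃ α ∈ A, α ≠ β ∧ α ∈ f β} = Order.succ lam) ∧
        ∀ Y : Set (Below lam), IsFree f Y → #Y ≤ lam) ∧
    ((∀ n : ℕ, (2 : Cardinal.{0}) ^ (ℵ_ (n : Ordinal.{0})) < ℵ_ Ordinal.omega0) →
      (2 : Cardinal.{0}) ^ (ℵ_ Ordinal.omega0 : Cardinal.{0}) = ℵ_ (Ordinal.omega0 + 1) →
      ∃ f : (ℵ_ (Ordinal.omega0 + 1) : Cardinal.{0}).ord.ToType →
          Set (ℵ_ (Ordinal.omega0 + 1) : Cardinal.{0}).ord.ToType,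
        (∀ α, α ∉ f α) ∧ (∀ α, #(f α) ≤ ℵ_ Ordinal.omega0) ∧
        (∀ α β, α ≠ β → #(f α ∩ f β : Set (ℵ_ (Ordinal.omega0 + 1) : Cardinal.{0}).ord.ToType) <
          ℵ_ Ordinal.omega0) ∧
        ∀ Y : Set (ℵ_ (Ordinal.omega0 + 1) : Cardinal.{0}).ord.ToType,
          (∀ α ∈ Y, ∀ β ∈ Y, α ≠ β → β ∉ f α) → #Y ≤ ℵ_ Ordinal.omega0) := by
  refine ⟨general, fun h1 h2 => ?_⟩
  have hsucc : (ℵ_ (Ordinal.omega0 + 1) : Cardinal.{0}) = Order.succ (ℵ_ Ordinal.omega0) := by
    rw [succ_aleph]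
  have hstr : ∀ c < (ℵ_ Ordinal.omega0 : Cardinal.{0}), (2 : Cardinal.{0}) ^ c < ℵ_ Ordinal.omega0 := by
    intro c hc
    obtain ⟨n, hn⟩ : ∃ n : ℕ, c ≤ ℵ_ (n : Ordinal.{0}) := by
      by_contra hcon
      push Not at hcon
      have h3 : (ℵ_ Ordinal.omega0 : Cardinal.{0}) ≤ c := by
        rw [aleph_limit Ordinal.isSuccLimit_omega0]
        refine ciSup_le' ?_
        rintro ⟨a, ha⟩
        obtain ⟨n, rfl⟩ := Ordinal.lt_omega0.1 ha
        exact (hcon n).le
      exact absurd hc (not_lt.2 h3)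
    exact (Cardinal.power_le_power_left two_ne_zero hn).trans_lt (h1 n)
  obtain ⟨f, hf, -, -, -, hfree⟩ := general (ℵ_ Ordinal.omega0 : Cardinal.{0})
    isSingular_aleph_omega0 hstr (h2.trans hsucc)
  rw [hsucc]
  exact ⟨f, hf.notMem, hf.card_le, hf.card_inter, hfree⟩

end Pool.Agent.Results.MP_711cdf_lc.AllSingulars
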